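import Pool.Agent.V1132.PowComMain

/-!
# If the power graph of `G₁` is isomorphic to the commuting graph of `G₂`, then the power graph and
the commuting graph of `G₁` are equal
-/

set_option autoImplicit false

namespace Pool.Agent.Results.MP_2b7cf0_al.PowEqCom

open Pool.Agent.V1132.PowCom

/-- **Theorem.** Let `G₁` and `G₂` be finite groups such that the power graph of `G₁` is isomorphic
to the commuting graph of `G₂`. Then the power graph of `G₁` equals the commuting graph of `G₁`. -/
theorem result {G₁ G₂ : Type*} [Group G₁] [Group G₂] [Finite G₁] [Finite G₂]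
    (h : Nonempty (powGraph G₁ ≃g comGraph G₂)) : powGraph G₁ = comGraph G₁ := by
  obtain ⟨ψ⟩ := h
  exact Pool.Agent.V1132.PowComMain.main' ψ

end Pool.Agent.Results.MP_2b7cf0_al.PowEqCom
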